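import Mathlib

set_option autoImplicit false

namespace Pool.Agent.Results.MP_0a1256_an.No

open scoped ComplexOrder

/-- idempotent onto a closed ternary subspace satisfying the identity -/
def Tern {B : Type} [CStarAlgebra B] (P : B →ₗ[ℂ] B) : Prop :=
  (∀ x, P (P x) = P x) ∧ IsClosed (Set.range P) ∧
  (∀ x y z, P x * (star (P y) * P z) ∈ Set.range P) ∧
  ∀ x y z, P (P x * (star y * P z)) = P x * (star (P y) * P z)

/-- a contraction of a normed space with prescribed compression -/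
def Ext {A B : Type} [NormedAddCommGroup A] [NormedSpace ℂ A] (i : B → A) (p : A → B)
    (P : B → B) : Prop :=
  ∃ Φ : A →L[ℂ] A, ‖Φ‖ ≤ 1 ∧ ∀ x, p (Φ (i x)) = P x

theorem result : ∃ (B : Type) (_ : CStarAlgebra B) (_ : PartialOrder B) (_ : StarOrderedRing B)
    (P : B →ₗ[ℂ] B), Tern P ∧ ¬ Ext (A := CStarMatrix (Fin 2) (Fin 2) B)
      (fun x => CStarMatrix.ofMatrix (Matrix.single 1 0 x)) (fun M => M 1 0) P := by
  let P : (ℂ × ℂ) →ₗ[ℂ] (ℂ × ℂ) :=
    ((2 : ℂ) • LinearMap.fst ℂ ℂ ℂ - LinearMap.snd ℂ ℂ ℂ).smulRight 1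
  have hP : ∀ x, P x = (2 * x.1 - x.2, 2 * x.1 - x.2) := fun x => by ext <;> simp [P]
  let _ := CStarAlgebra.spectralOrder (ℂ × ℂ)
  have := CStarAlgebra.spectralOrderedRing (ℂ × ℂ)
  refine ⟨ℂ × ℂ, inferInstance, inferInstance, inferInstance, P, ⟨fun x => ?_,
    (LinearMap.range P).closed_of_finiteDimensional, fun x y z => ⟨P x * (star (P y) * P z), ?_⟩,
    fun x y z => ?_⟩, fun ⟨Φ, h1, h2⟩ => ?_⟩
  · ext <;> simp [hP] <;> ring
  · ext <;> simp [hP] <;> ring
  · ext <;> simp [hP] <;> ring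
  · set M : CStarMatrix (Fin 2) (Fin 2) (ℂ × ℂ) :=
      CStarMatrix.ofMatrix (Matrix.single 1 0 (1, -1)) with hM
    have e : star M * M = CStarMatrix.ofMatrix (Matrix.single 0 0 1) := by
      ext i j <;> fin_cases i <;> fin_cases j <;>
        simp [hM, CStarMatrix.mul_apply, CStarMatrix.star_apply, Matrix.single]
    have pr : IsStarProjection (star M * M) := ⟨by
      rw [e, IsIdempotentElem]
      ext i j <;> fin_cases i <;> fin_cases j <;> simp [CStarMatrix.mul_apply, Matrix.single],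
      IsSelfAdjoint.star_mul_self M⟩
    have n := pr.norm_le
    rw [CStarRing.norm_star_mul_self] at n
    have a := CStarMatrix.norm_entry_le_norm (M := Φ M) (i := 1) (j := 0)
    have b := Φ.le_of_opNorm_le h1 M
    rw [show Φ M 1 0 = P (1, -1) from h2 _, hP] at a
    norm_num [Prod.norm_def] at a
    nlinarith

end Pool.Agent.Results.MP_0a1256_an.No
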